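import Pool.Agent.W97.KE.Stm

/-!
Project KE (helper97), part LTOR (helper28): the local Galois group at `l` and the points of
`p`-power order.
-/

set_option autoImplicit false

open scoped Classical

namespace Pool.Agent.W28.KE

open Pool.Agent.W97.KE
open Pool.Agent.W97.V20 (fE psi E4)
open Pool.Agent.H901R3.MS (Place)

/-- roots of unity lift through a place of an algebraically closed field of characteristic zero -/
theorem lift_root {K k : Type} [Field K] [Field k] [CharZero K] [IsAlgClosed K] (v : Place K k)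
    (M : ℕ) (hM : 1 ≤ M) (z : k) (hz : z ^ M = 1) : ∃ ζ : K, ζ ^ M = 1 ∧ v.r ζ = z := by
  have hmem : ∀ ζ : K, ζ ^ M = 1 → ζ ∈ v.A := fun ζ h =>
    v.mem_of_pow_mem hM (by rw [h]; exact v.A.one_mem)
  have : NeZero (M : K) := ⟨by exact_mod_cast (by omega : M ≠ 0)⟩
  obtain ⟨ζ, hζ⟩ := HasEnoughRootsOfUnity.exists_primitiveRoot K M
  let ζ' : v.A := ⟨ζ, hmem ζ hζ.pow_eq_one⟩
  have hζ' : IsPrimitiveRoot ζ' M := by
    rw [← IsPrimitiveRoot.map_iff_of_injective (f := v.A.subtype) Subtype.val_injective]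
    exact hζ
  have h1 := Polynomial.X_pow_sub_one_eq_prod (by omega : 0 < M) hζ'
  have h2 := congrArg (Polynomial.eval₂ v.ρ z) h1
  rw [Polynomial.eval₂_sub, Polynomial.eval₂_pow, Polynomial.eval₂_X, Polynomial.eval₂_one, hz,
    sub_self, Polynomial.eval₂_finsetProd] at h2
  obtain ⟨a, ha, ha2⟩ := Finset.prod_eq_zero_iff.mp h2.symm
  rw [Polynomial.mem_nthRootsFinset (by omega : 0 < M)] at ha
  refine ⟨(a : K), ?_, ?_⟩
  · have := congrArg (fun x : v.A => (x : K)) ha
    simpa using this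
  · rw [v.r_of a.2]
    rw [Polynomial.eval₂_sub, Polynomial.eval₂_X, Polynomial.eval₂_C] at ha2
    exact (sub_eq_zero.mp ha2).symm

/-- elements fixed by the Frobenius are fixed by all automorphisms -/
theorem fix_of_frob (l : ℕ) [Fact l.Prime] (x : AlgebraicClosure (ZMod l))
    (hx : frobenius (AlgebraicClosure (ZMod l)) l x = x)
    (σ : AlgebraicClosure (ZMod l) ≃+* AlgebraicClosure (ZMod l)) : σ x = x := by
  have h1 : x ∈ (⊥ : Subfield (AlgebraicClosure (ZMod l))) := by
    rw [Subfield.mem_bot_iff_pow_eq_self (AlgebraicClosure (ZMod l)) l]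
    exact hx
  have h2 : (⊥ : Subfield (AlgebraicClosure (ZMod l))) ≤
      RingHom.eqLocusField (σ : AlgebraicClosure (ZMod l) →+* AlgebraicClosure (ZMod l))
        (RingHom.id _) := bot_le
  exact h2 h1

theorem fixPt_of_frob (W : WeierstrassCurve ℤ) (l : ℕ) [Fact l.Prime]
    (P : Pt W (AlgebraicClosure (ZMod l)))
    (hP : mapPt W (frobenius (AlgebraicClosure (ZMod l)) l) P = P)
    (σ : AlgebraicClosure (ZMod l) ≃+* AlgebraicClosure (ZMod l)) :
    mapPt W (σ : AlgebraicClosure (ZMod l) →+* AlgebraicClosure (ZMod l)) P = P := by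
  cases P with
  | zero => rfl
  | some x y h =>
    have h1 : ∃ h', mapPt W (frobenius (AlgebraicClosure (ZMod l)) l)
        (WeierstrassCurve.Affine.Point.some x y h : Pt W (AlgebraicClosure (ZMod l))) =
        WeierstrassCurve.Affine.Point.some (frobenius (AlgebraicClosure (ZMod l)) l x)
          (frobenius (AlgebraicClosure (ZMod l)) l y) h' := ⟨_, rfl⟩
    obtain ⟨h', h1⟩ := h1
    rw [h1] at hP
    have hxy := (WeierstrassCurve.Affine.Point.some.injEq _ _ _ _ _ _).mp hP
    have h2 : ∃ h', mapPt W (σ : AlgebraicClosure (ZMod l) →+* AlgebraicClosure (ZMod l))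
        (WeierstrassCurve.Affine.Point.some x y h : Pt W (AlgebraicClosure (ZMod l))) =
        WeierstrassCurve.Affine.Point.some (σ x) (σ y) h' := ⟨_, rfl⟩
    obtain ⟨h'', h2⟩ := h2
    rw [h2]
    have e1 := fix_of_frob l x hxy.1 σ
    have e2 := fix_of_frob l y hxy.2 σ
    exact (WeierstrassCurve.Affine.Point.some.injEq _ _ _ _ _ _).mpr ⟨e1, e2⟩

/-- LTOR -/
theorem s_ltor : S_LTOR := by
  intro hPL hRED hFB p l _ hp hpl hl hd hd2 hfr
  obtain ⟨v, hv⟩ := hPL l
  obtain ⟨red, hred, hker⟩ := hRED l hl v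
  obtain ⟨hdec, hfix⟩ := hFB E4 p l hp hpl hd hd2 hfr
  have hker' : ∀ (k : ℕ) (P : Pt E4 (AlgebraicClosure ℚ_[l])), p ^ k • P = 0 → red P = 0 →
      P = 0 := by
    intro k
    induction k with
    | zero => intro P h _; simpa using h
    | succ k ih =>
      intro P h h0
      apply ih P _ h0
      apply hker p hp hpl
      · rw [← mul_smul, ← pow_succ']; exact h
      · rw [map_nsmul, h0, smul_zero]
  constructor
  · intro τ P hP
    obtain ⟨σ, hσ⟩ := hv τ
    have h1 : red (mapPt E4 (τ : AlgebraicClosure ℚ_[l] →+* AlgebraicClosure ℚ_[l]) P - P) = 0 := by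
      rw [map_sub, hred τ σ hσ, fixPt_of_frob E4 l (red P) _ σ, sub_self]
      apply hfr
      rw [← map_nsmul, hP, map_zero]
    have h2 : p • (mapPt E4 (τ : AlgebraicClosure ℚ_[l] →+* AlgebraicClosure ℚ_[l]) P - P) = 0 := by
      rw [smul_sub, ← map_nsmul, hP, map_zero, sub_zero]
    exact sub_eq_zero.mp (hker p hp hpl _ h2 h1)
  · intro τ hτ P k hk
    obtain ⟨σ, hσ⟩ := hv τ
    have hσ1 : ∀ (n : ℕ) (z : AlgebraicClosure (ZMod l)), z ^ p ^ (n + 1) = 1 → σ z = z := by
      intro n z hz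
      obtain ⟨ζ, h1, h2⟩ := lift_root v (p ^ (n + 1)) (Nat.one_le_pow _ _ hp.pos) z hz
      have h3 := (hσ ζ).2
      rw [hτ n ζ h1, h2] at h3
      exact h3.symm
    obtain ⟨Q, R, hQR, ⟨j, hj⟩, N, hN, hNR⟩ := hdec (red P)
    have hQ := hfix σ hσ1 Q ⟨j, hj⟩
    set D := mapPt E4 (τ : AlgebraicClosure ℚ_[l] →+* AlgebraicClosure ℚ_[l]) P - P with hD
    have h1 : red D = mapPt E4 (σ : AlgebraicClosure (ZMod l) →+* AlgebraicClosure (ZMod l)) R - R := by
      rw [hD, map_sub, hred τ σ hσ, hQR, map_add, hQ]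
      abel
    have h2 : N • red D = 0 := by
      rw [h1, smul_sub, ← map_nsmul, hNR, map_zero, sub_zero]
    have h3 : p ^ k • red D = 0 := by
      rw [← map_nsmul, hk, map_zero]
    have h4 : red D = 0 := by
      have hc : Nat.Coprime N (p ^ k) := Nat.Coprime.pow_right k hN
      have d1 : addOrderOf (red D) ∣ N := addOrderOf_dvd_of_nsmul_eq_zero h2
      have d2 : addOrderOf (red D) ∣ p ^ k := addOrderOf_dvd_of_nsmul_eq_zero h3
      have d3 : addOrderOf (red D) = 1 := Nat.dvd_one.mp (hc ▸ Nat.dvd_gcd d1 d2)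
      exact AddMonoid.addOrderOf_eq_one_iff.mp d3
    exact sub_eq_zero.mp (hker' k D hk h4)

end Pool.Agent.W28.KE
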